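import Pool.Agent.U424.DQ.Stm

set_option autoImplicit false
set_option linter.all false

namespace Pool.Agent.U333.DQ

open Finset Pool.Agent.N718.DC Pool.Agent.U424.DQ
open Pool.Agent.N546.PN (Typ)

lemma jac_ne {p q : ℕ} (hp : p.Prime) (h : jacobiSym (p : ℤ) q = 1) : p ≠ q := by
  intro hpq
  subst hpq
  have h0 : jacobiSym (p : ℤ) p = 0 := by
    haveI : NeZero p := ⟨hp.ne_zero⟩
    rw [jacobiSym.eq_zero_iff_not_coprime, Int.gcd_natCast_natCast, Nat.gcd_self]
    exact hp.one_lt.ne'
  rw [h0] at h
  exact zero_ne_one h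

lemma SolM3 {K : Type} [Field K] (A : Fin 3 → K) : SolM A ↔ Sol (A 0) (A 1) (-A 2) := by
  constructor
  · rintro ⟨u, h1, h2⟩
    refine ⟨u 0, u 1, u 2, ?_, ?_⟩
    · by_contra h
      push Not at h
      apply h1
      funext l
      fin_cases l
      · exact h.1
      · exact h.2.1
      · exact h.2.2
    · rw [Fin.sum_univ_three] at h2
      linear_combination h2
  · rintro ⟨u, v, w, h1, h2⟩
    refine ⟨![u, v, w], ?_, ?_⟩
    · intro h
      rcases h1 with h1 | h1 | h1
      · exact h1 (by simpa using congrFun h 0)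
      · exact h1 (by simpa using congrFun h 1)
      · exact h1 (by simpa using congrFun h 2)
    · rw [Fin.sum_univ_three]
      simp
      linear_combination h2

lemma block (h1 : S_ARI) (h2 : S_ARIM) (m : ℕ) (hm : 3 ≤ m) (M : ℕ) (f : Fin m → ℤ) (g : Fin m → ℕ)
    (s : Fin m → ℤ) (hM : 1 ≤ M) (h2M : 2 ∣ M)
    (hg : ∀ l, g l ∣ M ∧ ∀ p : ℕ, p.Prime → p ∣ M → p ^ 3 ∣ M / g l)
    (hf : ∀ l, ∃ n : ℤ, f l = g l * n ∧ IsCoprime n (M : ℤ)) (hs : ∀ l, s l = 1 ∨ s l = -1)
    (hR : SolM (fun l => (s l : ℝ)))
    (hp : ∀ (p : ℕ) [Fact p.Prime], p ∣ M → SolM (fun l => ((f l : ℤ) : ℚ_[p]))) :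
    ∃ ε : Fin m → Fin m → ℤ, (∀ l l', ε l l' = 1 ∨ ε l l' = -1) ∧
      ∀ F : Fin m → ℤ, (∀ l, (M : ℤ) ∣ F l - f l) → ∀ P : Fin m → ℕ,
        (∀ l, (P l).Prime ∧ s l * F l = g l * P l) →
        (∀ l l', l < l' → jacobiSym (P l) (P l') = ε l l') →
        SolM (fun l => ((F l : ℤ) : ℚ)) := by
  rcases hm.eq_or_lt with h3 | h4
  · subst h3
    obtain ⟨ε, hε, H⟩ := h1 M ![f 0, f 1, -f 2] g ![s 0, s 1, -s 2] hM h2M hg
      (by
        intro l
        obtain ⟨n, hn1, hn2⟩ := hf l
        fin_cases l
        · exact ⟨n, by simpa using hn1, hn2⟩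
        · exact ⟨n, by simpa using hn1, hn2⟩
        · refine ⟨-n, ?_, hn2.neg_left⟩
          simp only [Fin.reduceFinMk, Matrix.cons_val] at hn1 ⊢
          rw [hn1]; ring)
      (by
        intro l
        fin_cases l
        · simpa using hs 0
        · simpa using hs 1
        · rcases hs 2 with h | h
          · right; simp [h]
          · left; simp [h])
      (by
        rintro ⟨a0, a1, a2⟩
        simp only [Matrix.cons_val] at a0 a1 a2
        obtain ⟨u, hu, hu2⟩ := hR
        rw [Fin.sum_univ_three] at hu2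
        have a2' : s 2 = 1 := by linarith
        beta_reduce at hu2
        rw [a0, a1, a2'] at hu2
        push_cast at hu2
        have q0 : u 0 = 0 := by nlinarith [sq_nonneg (u 0), sq_nonneg (u 1), sq_nonneg (u 2)]
        have q1 : u 1 = 0 := by nlinarith [sq_nonneg (u 0), sq_nonneg (u 1), sq_nonneg (u 2)]
        have q2 : u 2 = 0 := by nlinarith [sq_nonneg (u 0), sq_nonneg (u 1), sq_nonneg (u 2)]
        apply hu
        funext l
        fin_cases l
        · exact q0
        · exact q1
        · exact q2)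
      (by
        rintro ⟨a0, a1, a2⟩
        simp only [Matrix.cons_val] at a0 a1 a2
        obtain ⟨u, hu, hu2⟩ := hR
        rw [Fin.sum_univ_three] at hu2
        have a2' : s 2 = -1 := by linarith
        beta_reduce at hu2
        rw [a0, a1, a2'] at hu2
        push_cast at hu2
        have q0 : u 0 = 0 := by nlinarith [sq_nonneg (u 0), sq_nonneg (u 1), sq_nonneg (u 2)]
        have q1 : u 1 = 0 := by nlinarith [sq_nonneg (u 0), sq_nonneg (u 1), sq_nonneg (u 2)]
        have q2 : u 2 = 0 := by nlinarith [sq_nonneg (u 0), sq_nonneg (u 1), sq_nonneg (u 2)]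
        apply hu
        funext l
        fin_cases l
        · exact q0
        · exact q1
        · exact q2)
      (by
        intro p _ hpM
        have := (SolM3 _).mp (hp p hpM)
        simpa using this)
    refine ⟨ε, hε, ?_⟩
    intro F hF P hP hJ
    rw [SolM3]
    have := H ![F 0, F 1, -F 2]
      (by
        intro l
        have := hF l
        fin_cases l
        · simpa using this
        · simpa using this
        · obtain ⟨c, hc⟩ := this
          refine ⟨-c, ?_⟩
          simp only [Fin.reduceFinMk, Matrix.cons_val] at hc ⊢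
          linear_combination -hc)
      P
      (by
        intro l
        have := hP l
        refine ⟨this.1, ?_⟩
        have h5 := this.2
        fin_cases l
        · simpa using h5
        · simpa using h5
        · simp only [Fin.reduceFinMk, Matrix.cons_val] at h5 ⊢
          linear_combination h5)
      hJ
    simpa using this
  · refine ⟨fun _ _ => 1, fun _ _ => Or.inl rfl, ?_⟩
    intro F hF P hP hJ
    exact h2 m h4 M f g s hM h2M hg hf hs hR hp F hF P hP
      (fun l l' hl => jac_ne (hP l).1 (hJ l l' hl))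

theorem typm_ (h1 : S_ARI) (h2 : S_ARIM) : S_TYPM := by
  intro r m hm e he hun
  refine ⟨?_, ?_, ?_⟩
  · intro M f g s hM h2M hg hf hS hp
    have hb : ∀ i : Fin r, _ := fun i => block h1 h2 (m i) (hm i) M (fun l => f ⟨i, l⟩)
      (fun l => g ⟨i, l⟩) (fun l => s ⟨i, l⟩) hM h2M (fun l => hg _) (fun l => hf _)
      (fun l => hS.1 _) (hS.2 i) (fun p _ hpM => hp p hpM i)
    choose ε hε H using hb
    refine ⟨fun k k' => if h : k.1 = k'.1 then ε k'.1 (h ▸ k.2) k'.2 else 1, ?_, ?_⟩
    · intro k k'
      by_cases h : k.1 = k'.1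
      · simp only [h, dite_true]
        exact hε _ _ _
      · simp [h]
    · intro F hF P hP hJ i
      refine H i (fun l => F ⟨i, l⟩) (fun l => hF _) (fun l => P ⟨i, l⟩) (fun l => hP _) ?_
      intro l l' hl
      have := hJ ⟨i, l⟩ ⟨i, l'⟩ (by
        rw [Fin.lt_def, finSigmaFinEquiv_apply, finSigmaFinEquiv_apply]
        simpa using hl)
      simpa using this
  · intro K L _ _ f a ha i
    obtain ⟨u, hu, hu2⟩ := ha i
    refine ⟨fun l => f (u l), ?_, ?_⟩
    · intro h
      apply hu
      funext l
      have := congrFun h l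
      simpa using this
    · have := congrArg f hu2
      rw [map_sum, map_zero] at this
      rw [← this]
      apply Finset.sum_congr rfl
      intro l _
      rw [map_mul, map_pow]
  · refine ⟨fun k => if (k.2 : ℕ) = 0 then 1 else -1, ?_, ?_⟩
    · intro k
      by_cases h : (k.2 : ℕ) = 0
      · left; simp [h]
      · right; simp [h]
    · intro K _ i
      have h0 : 0 < m i := lt_of_lt_of_le (by norm_num) (hm i)
      have h1 : 1 < m i := lt_of_lt_of_le (by norm_num) (hm i)
      refine ⟨fun l => if (l : ℕ) = 0 then 1 else if (l : ℕ) = 1 then 1 else 0, ?_, ?_⟩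
      · intro h
        have := congrFun h ⟨0, h0⟩
        simp at this
      · have hs : ∑ l : Fin (m i), (((if (l : ℕ) = 0 then 1 else -1 : ℤ)) : K) *
            (if (l : ℕ) = 0 then 1 else if (l : ℕ) = 1 then 1 else 0) ^ 2 =
            ∑ l ∈ ({⟨0, h0⟩, ⟨1, h1⟩} : Finset (Fin (m i))),
              (((if (l : ℕ) = 0 then 1 else -1 : ℤ)) : K) *
            (if (l : ℕ) = 0 then 1 else if (l : ℕ) = 1 then 1 else 0) ^ 2 := by
          symm
          apply Finset.sum_subset (Finset.subset_univ _)
          intro l _ hl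
          simp only [Finset.mem_insert, Finset.mem_singleton, not_or, Fin.ext_iff] at hl
          simp [hl.1, hl.2]
        refine Eq.trans hs ?_
        rw [Finset.sum_insert (by simp [Fin.ext_iff]), Finset.sum_singleton]
        simp

end Pool.Agent.U333.DQ
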